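import Mathlib
import Pool.Agent.H233Z.HM.Final

set_option autoImplicit false

namespace Pool.Agent.Results.MP_5355f8_al.AExists

open Pool.Agent.H233Z.HM

/-- There are a prime `p` and a torsion-free Hausdorff topological group `G` whose centre is open
and topologically isomorphic to the `p`-adic integers, such that `G / Z(G)` is a discrete infinite
`p`-group all of whose subgroups are minimal. -/
theorem result : ∃ (p : ℕ) (_ : Fact p.Prime) (G : Type) (_ : Group G) (_ : TopologicalSpace G),
    IsTopologicalGroup G ∧ T2Space G ∧ (∀ g : G, IsOfFinOrder g → g = 1) ∧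
    IsOpen (Subgroup.center G : Set G) ∧
    Nonempty (Subgroup.center G ≃ₜ* Multiplicative ℤ_[p]) ∧
    DiscreteTopology (G ⧸ Subgroup.center G) ∧ Infinite (G ⧸ Subgroup.center G) ∧
    IsPGroup p (G ⧸ Subgroup.center G) ∧
    ∀ (H : Subgroup (G ⧸ Subgroup.center G)) (t : TopologicalSpace H),
      @IsTopologicalGroup H t _ → @T2Space H t → t = ⊥ := by
  obtain ⟨k, G, Q, _, _, _, ι, ψ, a, h1, h2, hι, hZ, hψ, hker, htf, hM⟩ := exists_amalgam
  have hopen : IsOpen (Subgroup.center G : Set G) := by
    rw [hZ]
    exact hι.isOpen_range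
  let e : G ⧸ Subgroup.center G ≃* Q :=
    (QuotientGroup.quotientMulEquivOfEq (hZ.trans hker.symm)).trans
      (QuotientGroup.quotientKerEquivOfSurjective ψ hψ)
  refine ⟨3, ⟨Nat.prime_three⟩, G, inferInstance, inferInstance, h1, h2, ?_, hopen, ?_,
    QuotientGroup.discreteTopology hopen, ?_, ?_, ?_⟩
  · intro g hg
    obtain ⟨n, hn, hgn⟩ := isOfFinOrder_iff_pow_eq_one.1 hg
    exact htf g n hn hgn
  · rw [hZ]
    let f : Multiplicative ℤ_[3] ≃* ι.range := MonoidHom.ofInjective hι.injective
    have hf : Topology.IsEmbedding f :=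
      hι.isEmbedding.codRestrict (ι.range : Set G) fun z => ⟨z, rfl⟩
    exact ⟨(ContinuousMulEquiv.mk' (hf.toHomeomorphOfSurjective f.surjective) f.map_mul).symm⟩
  · have := hM.infinite
    exact Infinite.of_surjective e e.surjective
  · intro g
    refine ⟨k + k, e.injective ?_⟩
    rw [map_pow, pow_add, hM.exp, map_one]
  · intro H t ht1 ht2
    exact (hM.discrete (by positivity) (e.toMonoidHom.comp H.subtype)
      (e.injective.comp Subtype.val_injective)).eq_bot

end Pool.Agent.Results.MP_5355f8_al.AExists
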